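import Pool.Agent.Q123.KK.Main

/-!
# Kakeya sets closed under a lattice term
-/

namespace Q123.KK

open Set Filter Topology Q123.LP MeasureTheory

variable {n : ℕ}

/-- `K` contains a unit segment in every direction. -/
def HasUnitSegments (K : Set (EuclideanSpace ℝ (Fin n))) : Prop :=
  ∀ e : EuclideanSpace ℝ (Fin n), ‖e‖ = 1 → ∃ a : EuclideanSpace ℝ (Fin n),
    ∀ s : ℝ, 0 ≤ s → s ≤ 1 → a + s • e ∈ K

/-- `K` is closed under the lattice term `t`, applied to the coordinates with respect to the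
basis `b`. -/
def ClosedInBasis (b : Module.Basis (Fin n) ℝ (EuclideanSpace ℝ (Fin n))) {k : ℕ} (t : LTerm k)
    (K : Set (EuclideanSpace ℝ (Fin n))) : Prop :=
  ∀ w : Fin k → EuclideanSpace ℝ (Fin n), (∀ i, w i ∈ K) →
    ∑ j, t.eval (fun i => b.repr (w i) j) • b j ∈ K

theorem kakeya_closed (hn : 2 ≤ n) {k : ℕ} (t : LTerm k) (ht : t.Proper)
    (b : Module.Basis (Fin n) ℝ (EuclideanSpace ℝ (Fin n)))
    (K : Set (EuclideanSpace ℝ (Fin n))) (hK : HasUnitSegments K) (hcl : ClosedInBasis b t K) :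
    (interior K).Nonempty := by
  classical
  set f := b.equivFun with hf
  have hfc : Continuous f := LinearMap.continuous_of_finiteDimensional f.toLinearMap
  obtain ⟨D, hD, hpos, hgen⟩ := moment_directions hn
  have hint := interior_of_closed t ht {x | f.symm x ∈ K} ?_ D hD hpos hgen ?_
  · obtain ⟨x, hx⟩ := hint
    refine ⟨f.symm x, mem_interior_iff_mem_nhds.mpr ?_⟩
    have h1 := mem_interior_iff_mem_nhds.mp hx
    have h2 : Tendsto f (𝓝 (f.symm x)) (𝓝 x) := by
      have := hfc.tendsto (f.symm x)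
      rwa [LinearEquiv.apply_symm_apply] at this
    have h3 := h2 h1
    have h4 : f ⁻¹' {x | f.symm x ∈ K} = K := by
      ext y
      show f.symm (f y) ∈ K ↔ y ∈ K
      rw [LinearEquiv.symm_apply_apply]
    rwa [mem_map, h4] at h3
  · intro w hw
    have h1 := hcl (fun i => f.symm (w i)) hw
    show f.symm (fun j => t.eval (fun i => w i j)) ∈ K
    rw [hf, Module.Basis.equivFun_symm_apply]
    convert h1 using 4 with j _
    funext i
    have : b.repr (f.symm (w i)) j = f (f.symm (w i)) j := by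
      rw [hf, Module.Basis.equivFun_apply]
    rw [this, LinearEquiv.apply_symm_apply]
  · intro v hv
    set w := f.symm v with hw
    have hw0 : w ≠ 0 := by
      intro h0
      have h1 : v = 0 := by
        have : f w = 0 := by rw [h0, map_zero]
        rwa [hw, LinearEquiv.apply_symm_apply] at this
      have := hpos v hv ⟨0, by omega⟩
      rw [h1] at this
      exact lt_irrefl _ this
    have hnorm : 0 < ‖w‖ := norm_pos_iff.mpr hw0
    obtain ⟨a, ha⟩ := hK (‖w‖⁻¹ • w) (by
      rw [norm_smul, norm_inv, norm_norm, inv_mul_cancel₀ hnorm.ne'])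
    refine ⟨f a, ‖w‖⁻¹, inv_pos.mpr hnorm, fun s h0 h1 => ?_⟩
    have h2 := ha (s * ‖w‖) (by positivity) (by
      calc s * ‖w‖ ≤ ‖w‖⁻¹ * ‖w‖ := by gcongr
        _ = 1 := inv_mul_cancel₀ hnorm.ne')
    show f.symm (f a + s • v) ∈ K
    rw [map_add, LinearEquiv.symm_apply_apply, map_smul, ← hw]
    rwa [smul_smul, mul_assoc, mul_inv_cancel₀ hnorm.ne', mul_one] at h2

end Q123.KK
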