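import Pool.Agent.Q123.KK.Meet

/-!
# Sets with segments in uncountably many directions, closed under a lattice term
-/

namespace Q123.KK

open Set Filter Topology Q123.LP

variable {n : ℕ}

/-- **The join case.** -/
theorem interior_of_max (K : Set (Fin n → ℝ))
    (hK : ∀ x ∈ K, ∀ y ∈ K, (fun j => max (x j) (y j)) ∈ K)
    (D : Set (Fin n → ℝ)) (hD : ¬ D.Countable) (hpos : ∀ v ∈ D, ∀ i, 0 < v i)
    (hgen : ∀ v ∈ D, ∀ w ∈ D, v ≠ w → ∀ i j, i ≠ j → v i * w j ≠ v j * w i)
    (hseg : ∀ v ∈ D, HasSegment K v) : (interior K).Nonempty := by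
  have h := interior_of_min {x | -x ∈ K} ?_ D hD hpos hgen ?_
  · obtain ⟨x, hx⟩ := h
    refine ⟨-x, mem_interior_iff_mem_nhds.mpr ?_⟩
    have h1 := mem_interior_iff_mem_nhds.mp hx
    have h2 : Tendsto (fun y : Fin n → ℝ => -y) (𝓝 (-x)) (𝓝 x) := by
      have := (continuous_neg (G := Fin n → ℝ)).tendsto (-x)
      rwa [neg_neg] at this
    have h3 := h2 h1
    have h4 : (fun y : Fin n → ℝ => -y) ⁻¹' {x | -x ∈ K} = K := by
      ext y; simp
    rwa [mem_map, h4] at h3
  · intro x hx y hy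
    have := hK _ hx _ hy
    show -(fun j => min (x j) (y j)) ∈ K
    convert this using 1
    funext j
    simp only [Pi.neg_apply]
    exact (max_neg_neg _ _).symm
  · intro v hv
    obtain ⟨a, L, hL, h⟩ := hseg v hv
    refine ⟨-(a + L • v), L, hL, fun s h0 h1 => ?_⟩
    have h2 := h (L - s) (by linarith) (by linarith)
    show -(-(a + L • v) + s • v) ∈ K
    convert h2 using 1
    rw [sub_smul]
    abel

/-- **The median case.** -/
theorem interior_of_med (K : Set (Fin n → ℝ))
    (hK : ∀ x ∈ K, ∀ y ∈ K, ∀ z ∈ K, (fun j => med (x j) (y j) (z j)) ∈ K)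
    (D : Set (Fin n → ℝ)) (hD : ¬ D.Countable) (hpos : ∀ v ∈ D, ∀ i, 0 < v i)
    (hgen : ∀ v ∈ D, ∀ w ∈ D, v ≠ w → ∀ i j, i ≠ j → v i * w j ≠ v j * w i)
    (hseg : ∀ v ∈ D, HasSegment K v) : (interior K).Nonempty := by
  classical
  have hch : ∀ v : Fin n → ℝ, ∃ a : Fin n → ℝ, ∃ L : ℝ, v ∈ D → 0 < L ∧
      ∀ s : ℝ, 0 ≤ s → s ≤ L → a + s • v ∈ K := by
    intro v
    by_cases hv : v ∈ D
    · obtain ⟨a, L, hL, h⟩ := hseg v hv
      exact ⟨a, L, fun _ => ⟨hL, h⟩⟩
    · exact ⟨0, 0, fun h => absurd h hv⟩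
  choose a L haL using hch
  have hsplit : ∃ m : ℕ, ¬ {v ∈ D | ∀ i, a v i < TopologicalSpace.denseSeq (Fin n → ℝ) m i ∧
      TopologicalSpace.denseSeq (Fin n → ℝ) m i < a v i + L v * v i}.Countable := by
    by_contra hcon
    push Not at hcon
    apply hD
    refine (countable_iUnion hcon).mono ?_
    intro v hv
    have hopen : IsOpen {r : Fin n → ℝ | ∀ i, a v i < r i ∧ r i < a v i + L v * v i} := by
      simp only [ofPred_forall]
      refine isOpen_iInter_of_finite (fun i => ?_)
      exact (isOpen_lt continuous_const (continuous_apply i)).inter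
        (isOpen_lt (continuous_apply i) continuous_const)
    obtain ⟨hL, -⟩ := haL v hv
    have hne : {r : Fin n → ℝ | ∀ i, a v i < r i ∧ r i < a v i + L v * v i}.Nonempty := by
      refine ⟨fun i => a v i + L v * v i / 2, fun i => ?_⟩
      have := mul_pos hL (hpos v hv i)
      constructor <;> linarith
    obtain ⟨m, hm⟩ := (TopologicalSpace.denseRange_denseSeq (Fin n → ℝ)).exists_mem_open hopen hne
    exact mem_iUnion.mpr ⟨m, hv, hm⟩
  obtain ⟨m, hm⟩ := hsplit
  set r := TopologicalSpace.denseSeq (Fin n → ℝ) m with hr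
  set D' := {v ∈ D | ∀ i, a v i < r i ∧ r i < a v i + L v * v i} with hD'
  have hne : D'.Nonempty := by
    by_contra hcon
    rw [not_nonempty_iff_eq_empty] at hcon
    rw [hcon] at hm
    exact hm countable_empty
  obtain ⟨v₀, hv₀⟩ := hne
  have hr0 : a v₀ ∈ K := by
    obtain ⟨hL, h⟩ := haL v₀ hv₀.1
    simpa using h 0 le_rfl hL.le
  have hint := interior_of_min {x | x ∈ K ∧ ∀ i, a v₀ i ≤ x i} ?_ D' hm
    (fun v hv => hpos v hv.1) (fun v hv w hw => hgen v hv.1 w hw.1) ?_
  · exact hint.mono (interior_mono (fun x hx => hx.1))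
  · intro x hx y hy
    have h1 := hK x hx.1 y hy.1 _ hr0
    have h2 : (fun j => med (x j) (y j) (a v₀ j)) = fun j => min (x j) (y j) := by
      funext j
      exact med_eq_min (hx.2 j) (hy.2 j)
    rw [h2] at h1
    exact ⟨h1, fun i => le_min (hx.2 i) (hy.2 i)⟩
  · intro v hv
    obtain ⟨hL, h⟩ := haL v hv.1
    have hev : ∀ᶠ s : ℝ in 𝓝 (L v), 0 < s ∧ ∀ i, r i < a v i + s * v i := by
      apply Filter.Eventually.and (lt_mem_nhds hL)
      rw [Filter.eventually_all]
      intro i
      apply ContinuousAt.eventually_lt continuousAt_const (by fun_prop)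
      exact (hv.2 i).2
    obtain ⟨s₀, ⟨hs0, hs1⟩, hs2⟩ := ((hev.filter_mono nhdsWithin_le_nhds).and
      (self_mem_nhdsWithin (s := Set.Iio (L v)))).exists
    have hs2' : s₀ < L v := hs2
    refine ⟨a v + s₀ • v, L v - s₀, by linarith, fun s h0 h1 => ⟨?_, ?_⟩⟩
    · have := h (s₀ + s) (by linarith) (by linarith)
      rwa [add_smul, ← add_assoc] at this
    · intro i
      simp only [Pi.add_apply, Pi.smul_apply, smul_eq_mul]
      have h3 := hs1 i
      have h4 := (hv₀.2 i).1
      have h5 := mul_nonneg h0 (hpos v hv.1 i).le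
      linarith

/-- **Sets closed under a lattice term.** -/
theorem interior_of_closed {k : ℕ} (t : LTerm k) (ht : t.Proper) (K : Set (Fin n → ℝ))
    (hK : ClosedUnder t K)
    (D : Set (Fin n → ℝ)) (hD : ¬ D.Countable) (hpos : ∀ v ∈ D, ∀ i, 0 < v i)
    (hgen : ∀ v ∈ D, ∀ w ∈ D, v ≠ w → ∀ i j, i ≠ j → v i * w j ≠ v j * w i)
    (hseg : ∀ v ∈ D, HasSegment K v) : (interior K).Nonempty := by
  rcases hK.three ht with h | h | h
  · exact interior_of_min K h D hD hpos hgen hseg
  · exact interior_of_max K h D hD hpos hgen hseg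
  · exact interior_of_med K h D hD hpos hgen hseg

/-- the directions `(1, t, t², ...)` -/
lemma moment_directions (hn : 2 ≤ n) : ∃ D : Set (Fin n → ℝ), ¬ D.Countable ∧
    (∀ v ∈ D, ∀ i, 0 < v i) ∧
    (∀ v ∈ D, ∀ w ∈ D, v ≠ w → ∀ i j, i ≠ j → v i * w j ≠ v j * w i) := by
  refine ⟨(fun t : ℝ => fun i : Fin n => t ^ (i : ℕ)) '' Ioo 1 2, ?_, ?_, ?_⟩
  · intro hc
    have hinj : InjOn (fun t : ℝ => fun i : Fin n => t ^ (i : ℕ)) (Ioo 1 2) := by
      intro x _ y _ hxy
      have := congrFun hxy ⟨1, hn⟩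
      simpa using this
    have := countable_of_injective_of_countable_image hinj hc
    rw [Cardinal.Real.Ioo_countable_iff] at this
    norm_num at this
  · rintro v ⟨t, ht, rfl⟩ i
    exact pow_pos (lt_trans one_pos ht.1) _
  · rintro v ⟨t, ht, rfl⟩ w ⟨u, hu, rfl⟩ hne i j hij
    have ht0 : (0 : ℝ) < t := lt_trans one_pos ht.1
    have hu0 : (0 : ℝ) < u := lt_trans one_pos hu.1
    have htu : t ≠ u := fun h => hne (by rw [h])
    have key : ∀ i j : ℕ, i < j → t ^ i * u ^ j ≠ t ^ j * u ^ i := by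
      intro i j hij h
      obtain ⟨d, rfl⟩ := Nat.exists_eq_add_of_lt hij
      have h1 : t ^ i * u ^ i * u ^ (d + 1) = t ^ i * u ^ i * t ^ (d + 1) := by
        have e1 : t ^ i * u ^ (i + d + 1) = t ^ i * u ^ i * u ^ (d + 1) := by ring
        have e2 : t ^ (i + d + 1) * u ^ i = t ^ i * u ^ i * t ^ (d + 1) := by ring
        rw [← e1, ← e2]; exact h
      have h2 : u ^ (d + 1) = t ^ (d + 1) :=
        mul_left_cancel₀ (mul_pos (pow_pos ht0 i) (pow_pos hu0 i)).ne' h1
      exact htu (((pow_left_inj₀ hu0.le ht0.le (Nat.succ_ne_zero d)).mp h2).symm)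
    rcases lt_or_gt_of_ne (fun h => hij (Fin.ext h) : (i : ℕ) ≠ j) with h | h
    · exact key _ _ h
    · intro h'
      exact key _ _ h h'.symm

/-- a lattice term applied to elements of a chain gives one of them -/
lemma eval_chain {k : ℕ} (t : LTerm k) (w : Fin k → Fin n → ℝ)
    (hw : ∀ i j, (∀ l, w i l ≤ w j l) ∨ (∀ l, w j l ≤ w i l)) :
    ∃ i, (fun j => t.eval (fun i => w i j)) = w i := by
  induction t with
  | var i => exact ⟨i, rfl⟩
  | inf s t ihs iht =>
    obtain ⟨i, hi⟩ := ihs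
    obtain ⟨j, hj⟩ := iht
    rcases hw i j with h | h
    · refine ⟨i, ?_⟩
      funext l
      have h1 : LTerm.eval s (fun i => w i l) = w i l := congrFun hi l
      have h2 : LTerm.eval t (fun i => w i l) = w j l := congrFun hj l
      simp only [LTerm.eval, h1, h2]
      exact min_eq_left (h l)
    · refine ⟨j, ?_⟩
      funext l
      have h1 : LTerm.eval s (fun i => w i l) = w i l := congrFun hi l
      have h2 : LTerm.eval t (fun i => w i l) = w j l := congrFun hj l
      simp only [LTerm.eval, h1, h2]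
      exact min_eq_right (h l)
  | sup s t ihs iht =>
    obtain ⟨i, hi⟩ := ihs
    obtain ⟨j, hj⟩ := iht
    rcases hw i j with h | h
    · refine ⟨j, ?_⟩
      funext l
      have h1 : LTerm.eval s (fun i => w i l) = w i l := congrFun hi l
      have h2 : LTerm.eval t (fun i => w i l) = w j l := congrFun hj l
      simp only [LTerm.eval, h1, h2]
      exact max_eq_right (h l)
    · refine ⟨i, ?_⟩
      funext l
      have h1 : LTerm.eval s (fun i => w i l) = w i l := congrFun hi l
      have h2 : LTerm.eval t (fun i => w i l) = w j l := congrFun hj l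
      simp only [LTerm.eval, h1, h2]
      exact max_eq_left (h l)

/-- **Countably many directions are not enough.** -/
theorem chain_example (v : ℕ → Fin n → ℝ) (hv : ∀ m i, 0 < v m i) :
    ∃ K : Set (Fin n → ℝ), (∀ m, ∃ a : Fin n → ℝ, ∀ s : ℝ, 0 ≤ s → s ≤ 1 → a + s • v m ∈ K) ∧
      (∀ (k : ℕ) (t : LTerm k), ClosedUnder t K) ∧ (2 ≤ n → interior K = ∅) := by
  classical
  set a : ℕ → Fin n → ℝ := fun m => ∑ j ∈ Finset.range m, v j with ha
  set K : Set (Fin n → ℝ) := {x | ∃ m : ℕ, ∃ s : ℝ, 0 ≤ s ∧ s ≤ 1 ∧ x = a m + s • v m} with hK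
  have hmono : ∀ m m' : ℕ, m < m' → ∀ i, a m i + v m i ≤ a m' i := by
    intro m m' hmm i
    have h1 : a m i + v m i = ∑ j ∈ Finset.range (m + 1), v j i := by
      simp only [ha, Finset.sum_apply]
      rw [Finset.sum_range_succ]
    have h2 : a m' i = ∑ j ∈ Finset.range m', v j i := by
      simp only [ha, Finset.sum_apply]
    rw [h1, h2]
    exact Finset.sum_le_sum_of_subset_of_nonneg
      (Finset.range_subset_range.mpr hmm) (fun j _ _ => (hv j i).le)
  have hcmp' : ∀ (m : ℕ) (s : ℝ) (m' : ℕ) (s' : ℝ), 0 ≤ s → s ≤ 1 → 0 ≤ s' → s' ≤ 1 → m < m' →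
      ∀ i, (a m + s • v m) i ≤ (a m' + s' • v m') i := by
    intro m s m' s' _ h1 h2 _ hmm i
    simp only [Pi.add_apply, Pi.smul_apply, smul_eq_mul]
    have h3 := hmono m m' hmm i
    have h4 := hv m i
    have h5 := mul_nonneg h2 (hv m' i).le
    have h6 : s * v m i ≤ 1 * v m i := mul_le_mul_of_nonneg_right h1 h4.le
    linarith
  have hcmp : ∀ x ∈ K, ∀ y ∈ K, (∀ l, x l ≤ y l) ∨ (∀ l, y l ≤ x l) := by
    rintro x ⟨m, s, hs0, hs1, rfl⟩ y ⟨m', s', hs0', hs1', rfl⟩
    rcases lt_trichotomy m m' with h | h | h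
    · exact Or.inl (hcmp' m s m' s' hs0 hs1 hs0' hs1' h)
    · subst h
      rcases le_total s s' with h' | h'
      · left; intro l
        simp only [Pi.add_apply, Pi.smul_apply, smul_eq_mul]
        have := mul_le_mul_of_nonneg_right h' (hv m l).le
        linarith
      · right; intro l
        simp only [Pi.add_apply, Pi.smul_apply, smul_eq_mul]
        have := mul_le_mul_of_nonneg_right h' (hv m l).le
        linarith
    · exact Or.inr (hcmp' m' s' m s hs0' hs1' hs0 hs1 h)
  refine ⟨K, fun m => ⟨a m, fun s h0 h1 => ⟨m, s, h0, h1, rfl⟩⟩, ?_, ?_⟩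
  · intro k t w hw
    obtain ⟨i, hi⟩ := eval_chain t w (fun i j => hcmp _ (hw i) _ (hw j))
    rw [hi]
    exact hw i
  · intro hn
    by_contra hcon
    obtain ⟨x, hx⟩ := nonempty_iff_ne_empty.mpr hcon
    have hx' := mem_interior_iff_mem_nhds.mp hx
    have hev : ∀ j : Fin n, ∀ᶠ η : ℝ in 𝓝 0, x + Pi.single j η ∈ K := by
      intro j
      have hs : Continuous (fun η : ℝ => (Pi.single j η : Fin n → ℝ)) := by
        refine continuous_pi (fun i => ?_)
        by_cases h : i = j
        · subst h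
          simp only [Pi.single_eq_same]
          exact continuous_id
        · simp only [Pi.single_eq_of_ne h]
          exact continuous_const
      have hc : Continuous (fun η : ℝ => x + (Pi.single j η : Fin n → ℝ)) :=
        continuous_const.add hs
      have := hc.tendsto 0
      rw [Pi.single_zero, add_zero] at this
      exact this.eventually_mem hx'
    obtain ⟨η, ⟨h1, h2⟩, hη⟩ := ((((hev ⟨0, by omega⟩).and (hev ⟨1, by omega⟩)).filter_mono
      nhdsWithin_le_nhds).and (self_mem_nhdsWithin (s := Set.Ioi (0 : ℝ)))).exists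
    have hη' : (0 : ℝ) < η := hη
    rcases hcmp _ h1 _ h2 with h | h
    · have := h ⟨0, by omega⟩
      simp at this
      linarith
    · have := h ⟨1, by omega⟩
      simp at this
      linarith

end Q123.KK
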