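import Pool.Agent.Q123.LP.Term

/-!
# Sets with segments in uncountably many directions, closed under coordinatewise minima
-/

namespace Q123.KK

open Set Filter Topology Q123.LP

/-- `K` contains a segment of positive length in the direction `v`. -/
def HasSegment {n : ℕ} (K : Set (Fin n → ℝ)) (v : Fin n → ℝ) : Prop :=
  ∃ a : Fin n → ℝ, ∃ L : ℝ, 0 < L ∧ ∀ s : ℝ, 0 ≤ s → s ≤ L → a + s • v ∈ K

/-- condensation points -/
lemma exists_condensed {α X : Type*} [TopologicalSpace X] [SecondCountableTopology X]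
    (f : α → X) (D : Set α) (hD : ¬ D.Countable) :
    ∃ C ⊆ D, C.Nonempty ∧ ∀ v ∈ C, ∀ W ∈ 𝓝 (f v), ∃ w ∈ C, w ≠ v ∧ f w ∈ W := by
  classical
  set B := TopologicalSpace.countableBasis X with hB
  have hBc : B.Countable := TopologicalSpace.countable_countableBasis X
  set Bad : Set α := ⋃ b ∈ {b ∈ B | {w ∈ D | f w ∈ b}.Countable}, {w ∈ D | f w ∈ b} with hBad
  have hBadc : Bad.Countable := by
    refine Countable.biUnion (hBc.mono (fun b hb => hb.1)) (fun b hb => hb.2)
  have hne : ∀ E : Set α, E ⊆ D → ¬ E.Countable → ∀ v : α, ∃ w ∈ E, w ∉ Bad ∧ w ≠ v := by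
    intro E hE hEc v
    by_contra hcon
    push Not at hcon
    apply hEc
    refine (hBadc.union (countable_singleton v)).mono ?_
    intro w hw
    by_cases h : w ∈ Bad
    · exact Or.inl h
    · exact Or.inr (hcon w hw h)
  refine ⟨D \ Bad, sdiff_subset, ?_, ?_⟩
  · rcases isEmpty_or_nonempty α with h | ⟨⟨v⟩⟩
    · exact absurd (Set.countable_of_injective_of_countable_image
        (f := f) (fun a => (h.false a).elim) (by
          have : D = ∅ := eq_empty_of_forall_notMem (fun a => (h.false a).elim)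
          rw [this]; simp)) hD
    · obtain ⟨w, hw, hw', -⟩ := hne D subset_rfl hD v
      exact ⟨w, hw, hw'⟩
  · intro v hv W hW
    obtain ⟨b, hb, hvb, hbW⟩ :=
      (TopologicalSpace.isBasis_countableBasis X).mem_nhds_iff.mp hW
    have hbunc : ¬ {w ∈ D | f w ∈ b}.Countable := by
      intro hc
      apply hv.2
      rw [hBad]
      exact mem_biUnion (show b ∈ {b ∈ B | {w ∈ D | f w ∈ b}.Countable} from ⟨hb, hc⟩) ⟨hv.1, hvb⟩
    obtain ⟨w, hw, hw1, hw2⟩ := hne _ (fun w hw => hw.1) hbunc v
    exact ⟨w, ⟨hw.1, hw1⟩, hw2, hbW hw.2⟩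

variable {n : ℕ}

/-- two lines in different plane directions cross -/
lemma cross {a v b w : Fin n → ℝ} {s ε δ : ℝ} {k l : Fin n} (hv : 0 < v k) (hw : 0 < w k)
    (hvw : v k * w l ≠ v l * w k) (hε : 0 < ε)
    (h1 : |b k + s * w k - (a k + s * v k)| < ε * v k)
    (h2 : |b k + (s + δ) * w k - (a k + s * v k)| < ε * v k) (hδ : 0 < δ) (hδε : δ < ε) :
    ∃ s₁ s₂ : ℝ, |s₁ - s| < ε ∧ |s₂ - s| < ε ∧
      ((a k + s₁ * v k < b k + s₂ * w k ∧ b l + s₂ * w l < a l + s₁ * v l) ∨
       (b k + s₂ * w k < a k + s₁ * v k ∧ a l + s₁ * v l < b l + s₂ * w l)) := by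
  -- the parameter on the first line with the same coordinate `k`
  set f : ℝ → ℝ := fun x => (b k + x * w k - a k) / v k with hf
  have hfk : ∀ x, a k + f x * v k = b k + x * w k := by
    intro x; simp only [hf]; field_simp; ring
  have hfs : ∀ x, |b k + x * w k - (a k + s * v k)| < ε * v k → |f x - s| < ε := by
    intro x hx
    have h3 : b k + x * w k - (a k + s * v k) = (f x - s) * v k := by
      rw [← hfk x]; ring
    rw [h3, abs_mul, abs_of_pos hv] at hx
    exact lt_of_mul_lt_mul_right hx hv.le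
  obtain ⟨x, hx, hxs, hne⟩ : ∃ x, |x - s| < ε ∧ |f x - s| < ε ∧
      b l + x * w l - (a l + f x * v l) ≠ 0 := by
    by_cases h0 : b l + s * w l - (a l + f s * v l) = 0
    · refine ⟨s + δ, by rw [add_sub_cancel_left, abs_of_pos hδ]; exact hδε, hfs _ h2, ?_⟩
      intro h0'
      have h4 : δ * w l = (f (s + δ) - f s) * v l := by linarith
      have h5 : (f (s + δ) - f s) * v k = δ * w k := by
        have e1 := hfk (s + δ); have e2 := hfk s; linarith
      have h6 : δ * (v k * w l - v l * w k) = 0 := by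
        have : δ * (v k * w l) = δ * (v l * w k) := by
          calc δ * (v k * w l) = v k * (δ * w l) := by ring
            _ = v k * ((f (s + δ) - f s) * v l) := by rw [h4]
            _ = v l * ((f (s + δ) - f s) * v k) := by ring
            _ = v l * (δ * w k) := by rw [h5]
            _ = δ * (v l * w k) := by ring
        linarith
      rcases mul_eq_zero.mp h6 with h | h
      · linarith
      · exact hvw (by linarith)
    · exact ⟨s, by simpa using hε, hfs _ h1, h0⟩
  rcases lt_or_gt_of_ne hne with hlt | hgt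
  · -- the second line is below: move the first point back
    have hev : ∀ᶠ η : ℝ in 𝓝 0, |f x - η - s| < ε ∧
        b l + x * w l < a l + (f x - η) * v l := by
      apply Filter.Eventually.and
      · apply ContinuousAt.eventually_lt (by fun_prop) continuousAt_const
        simpa using hxs
      · apply ContinuousAt.eventually_lt continuousAt_const (by fun_prop)
        simp only [sub_zero]; linarith
    obtain ⟨η, ⟨h3, h4⟩, hη⟩ := ((hev.filter_mono nhdsWithin_le_nhds).and
      (self_mem_nhdsWithin (s := Set.Ioi (0 : ℝ)))).exists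
    refine ⟨f x - η, x, h3, hx, Or.inl ⟨?_, h4⟩⟩
    have := mul_pos (show (0 : ℝ) < η from hη) hv
    have := hfk x
    nlinarith
  · have hev : ∀ᶠ η : ℝ in 𝓝 0, |x - η - s| < ε ∧
        a l + f x * v l < b l + (x - η) * w l := by
      apply Filter.Eventually.and
      · apply ContinuousAt.eventually_lt (by fun_prop) continuousAt_const
        simpa using hx
      · apply ContinuousAt.eventually_lt continuousAt_const (by fun_prop)
        simp only [sub_zero]; linarith
    obtain ⟨η, ⟨h3, h4⟩, hη⟩ := ((hev.filter_mono nhdsWithin_le_nhds).and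
      (self_mem_nhdsWithin (s := Set.Ioi (0 : ℝ)))).exists
    refine ⟨f x, x - η, hxs, h3, Or.inr ⟨?_, h4⟩⟩
    have := mul_pos (show (0 : ℝ) < η from hη) hw
    have := hfk x
    nlinarith

/-- `p i` has the smallest coordinate `i` among the points `p j`, `j ∈ I`. -/
def Shattered (Y : Set (Fin n → ℝ)) (I : Finset (Fin n)) (p : Fin n → Fin n → ℝ) : Prop :=
  (∀ i ∈ I, p i ∈ Y) ∧ ∀ i ∈ I, ∀ j ∈ I, j ≠ i → p i i < p j i

lemma Shattered.step {Y : Set (Fin n → ℝ)} (hY : Y.Nonempty)
    (hA : ∀ p ∈ Y, ∀ k l : Fin n, k ≠ l → ∀ W ∈ 𝓝 p,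
      ∃ q ∈ Y, ∃ q' ∈ Y, q ∈ W ∧ q' ∈ W ∧ q k < q' k ∧ q' l < q l)
    (hB : ∀ p ∈ Y, ∀ W ∈ 𝓝 p, ∃ q ∈ Y, q ∈ W ∧ ∀ i, q i < p i)
    {I : Finset (Fin n)} {p : Fin n → Fin n → ℝ} (h : Shattered Y I p) {l : Fin n}
    (hl : l ∉ I) : ∃ p', Shattered Y (insert l I) p' := by
  classical
  rcases I.eq_empty_or_nonempty with rfl | hI
  · obtain ⟨y, hy⟩ := hY
    refine ⟨fun _ => y, fun _ _ => hy, ?_⟩
    intro i hi j hj hij
    simp only [insert_empty_eq, Finset.mem_singleton] at hi hj
    exact absurd (hj.trans hi.symm) hij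
  obtain ⟨k, hk, hkmin⟩ := Finset.exists_min_image I (fun i => p i l) hI
  have hlk : k ≠ l := fun h => hl (h ▸ hk)
  -- first neighbourhood
  have hW0 : {x : Fin n → ℝ | (∀ j ∈ I, j ≠ k → p j j < x j) ∧
      (∀ j ∈ I, j ≠ k → x k < p j k)} ∈ 𝓝 (p k) := by
    refine Filter.Eventually.and ?_ ?_
    · rw [Filter.eventually_all_finset]
      intro j hj
      by_cases hjk : j = k
      · exact Filter.Eventually.of_forall (fun x hx => absurd hjk hx)
      · filter_upwards [(continuous_apply j).continuousAt.eventually_const_lt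
          (h.2 j hj k hk (Ne.symm hjk))] with x hx _ using hx
    · rw [Filter.eventually_all_finset]
      intro j hj
      by_cases hjk : j = k
      · exact Filter.Eventually.of_forall (fun x hx => absurd hjk hx)
      · filter_upwards [(continuous_apply k).continuousAt.eventually_lt_const
          (h.2 k hk j hj hjk)] with x hx _ using hx
  obtain ⟨q, hqY, hqW, hq⟩ := hB (p k) (h.1 k hk) _ hW0
  have hql : ∀ j ∈ I, q l < p j l := fun j hj => (hq l).trans_le (hkmin j hj)
  -- second neighbourhood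
  have hW1 : {x : Fin n → ℝ | (∀ j ∈ I, j ≠ k → p j j < x j) ∧
      (∀ j ∈ I, j ≠ k → x k < p j k) ∧ ∀ j ∈ I, x l < p j l} ∈ 𝓝 q := by
    refine Filter.Eventually.and ?_ (Filter.Eventually.and ?_ ?_)
    · rw [Filter.eventually_all_finset]
      intro j hj
      by_cases hjk : j = k
      · exact Filter.Eventually.of_forall (fun x hx => absurd hjk hx)
      · filter_upwards [(continuous_apply j).continuousAt.eventually_const_lt
          (hqW.1 j hj hjk)] with x hx _ using hx
    · rw [Filter.eventually_all_finset]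
      intro j hj
      by_cases hjk : j = k
      · exact Filter.Eventually.of_forall (fun x hx => absurd hjk hx)
      · filter_upwards [(continuous_apply k).continuousAt.eventually_lt_const
          (hqW.2 j hj hjk)] with x hx _ using hx
    · rw [Filter.eventually_all_finset]
      intro j hj
      exact (continuous_apply l).continuousAt.eventually_lt_const (hql j hj)
  obtain ⟨r, hrY, r', hrY', hrW, hrW', hrk, hrl⟩ := hA q hqY k l hlk _ hW1
  refine ⟨Function.update (Function.update p k r) l r', ?_, ?_⟩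
  · intro i hi
    rcases Finset.mem_insert.mp hi with rfl | hi
    · rw [Function.update_self]; exact hrY'
    · have hil : i ≠ l := fun h => hl (h ▸ hi)
      rw [Function.update_of_ne hil]
      by_cases hik : i = k
      · subst hik; rw [Function.update_self]; exact hrY
      · rw [Function.update_of_ne hik]; exact h.1 i hi
  · have vl : Function.update (Function.update p k r) l r' l = r' := Function.update_self _ _ _
    have vk : Function.update (Function.update p k r) l r' k = r := by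
      rw [Function.update_of_ne hlk, Function.update_self]
    have vo : ∀ i, i ≠ k → i ≠ l → Function.update (Function.update p k r) l r' i = p i := by
      intro i h1 h2
      rw [Function.update_of_ne h2, Function.update_of_ne h1]
    intro i hi j hj hij
    by_cases hil : i = l
    · subst hil
      have hj' : j ∈ I := (Finset.mem_insert.mp hj).resolve_left hij
      rw [vl]
      by_cases hjk : j = k
      · subst hjk; rw [vk]; exact hrl
      · rw [vo j hjk hij]; exact hrW'.2.2 j hj'
    · have hi' : i ∈ I := (Finset.mem_insert.mp hi).resolve_left hil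
      by_cases hik : i = k
      · subst hik
        rw [vk]
        by_cases hjl : j = l
        · subst hjl; rw [vl]; exact hrk
        · rw [vo j hij hjl]
          exact hrW.2.1 j ((Finset.mem_insert.mp hj).resolve_left hjl) hij
      · rw [vo i hik hil]
        by_cases hjl : j = l
        · subst hjl; rw [vl]; exact hrW'.1 i hi' hik
        · have hj' : j ∈ I := (Finset.mem_insert.mp hj).resolve_left hjl
          by_cases hjk : j = k
          · subst hjk; rw [vk]; exact hrW.1 i hi' hik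
          · rw [vo j hjk hjl]; exact h.2 i hi' j hj' hij

lemma exists_shattered {Y : Set (Fin n → ℝ)} (hY : Y.Nonempty)
    (hA : ∀ p ∈ Y, ∀ k l : Fin n, k ≠ l → ∀ W ∈ 𝓝 p,
      ∃ q ∈ Y, ∃ q' ∈ Y, q ∈ W ∧ q' ∈ W ∧ q k < q' k ∧ q' l < q l)
    (hB : ∀ p ∈ Y, ∀ W ∈ 𝓝 p, ∃ q ∈ Y, q ∈ W ∧ ∀ i, q i < p i) (I : Finset (Fin n)) :
    ∃ p, Shattered Y I p := by
  classical
  induction I using Finset.induction_on with
  | empty =>
    obtain ⟨y, hy⟩ := hY
    exact ⟨fun _ => y, fun _ _ => hy, fun i hi => by simp at hi⟩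
  | insert l I hl ih =>
    obtain ⟨p, hp⟩ := ih
    exact hp.step hY hA hB hl

/-- finite minima -/
lemma finite_min {K : Set (Fin n → ℝ)} (hK : ∀ x ∈ K, ∀ y ∈ K, (fun j => min (x j) (y j)) ∈ K)
    {ι : Type*} (I : Finset ι) (hI : I.Nonempty) (x : ι → Fin n → ℝ) (hx : ∀ i ∈ I, x i ∈ K) :
    (fun j => I.inf' hI (fun i => x i j)) ∈ K := by
  classical
  induction hI using Finset.Nonempty.cons_induction with
  | singleton a => simpa using hx a (Finset.mem_singleton_self a)
  | cons a s ha hs ih =>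
    have h1 := ih (fun i hi => hx i (Finset.mem_cons_of_mem hi))
    have h2 := hK _ (hx a (Finset.mem_cons_self a s)) _ h1
    convert h2 using 1
    funext j
    rw [Finset.inf'_cons hs]

/-- **The meet case.** -/
theorem interior_of_min (K : Set (Fin n → ℝ))
    (hK : ∀ x ∈ K, ∀ y ∈ K, (fun j => min (x j) (y j)) ∈ K)
    (D : Set (Fin n → ℝ)) (hD : ¬ D.Countable) (hpos : ∀ v ∈ D, ∀ i, 0 < v i)
    (hgen : ∀ v ∈ D, ∀ w ∈ D, v ≠ w → ∀ i j, i ≠ j → v i * w j ≠ v j * w i)
    (hseg : ∀ v ∈ D, HasSegment K v) : (interior K).Nonempty := by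
  classical
  -- a uniform length
  have hL : ∃ δ : ℝ, 0 < δ ∧ ¬ {v ∈ D | ∃ a : Fin n → ℝ, ∀ s : ℝ, 0 ≤ s → s ≤ δ →
      a + s • v ∈ K}.Countable := by
    by_contra hcon
    push Not at hcon
    apply hD
    have : D ⊆ ⋃ m : ℕ, {v ∈ D | ∃ a : Fin n → ℝ, ∀ s : ℝ, 0 ≤ s → s ≤ 1 / ((m : ℝ) + 1) →
        a + s • v ∈ K} := by
      intro v hv
      obtain ⟨a, L, hL, h⟩ := hseg v hv
      obtain ⟨m, hm⟩ := exists_nat_one_div_lt hL
      exact mem_iUnion.mpr ⟨m, hv, a, fun s h0 h1 => h s h0 (h1.trans hm.le)⟩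
    exact (countable_iUnion (fun m => hcon _ (by positivity))).mono this
  obtain ⟨δ, hδ, hD'⟩ := hL
  set D' := {v ∈ D | ∃ a : Fin n → ℝ, ∀ s : ℝ, 0 ≤ s → s ≤ δ → a + s • v ∈ K} with hD'def
  have hch : ∀ v : Fin n → ℝ, ∃ a : Fin n → ℝ, v ∈ D' → ∀ s : ℝ, 0 ≤ s → s ≤ δ →
      a + s • v ∈ K := by
    intro v
    by_cases hv : v ∈ D'
    · obtain ⟨a, ha⟩ := hv.2
      exact ⟨a, fun _ => ha⟩
    · exact ⟨0, fun h => absurd h hv⟩
  choose a ha using hch
  obtain ⟨C, hCD, ⟨v₀, hv₀⟩, hC⟩ := exists_condensed (fun v : Fin n → ℝ => (v, a v)) D' hD'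
  set Y : Set (Fin n → ℝ) := {p | ∃ v ∈ C, ∃ s : ℝ, 0 < s ∧ s < δ ∧ p = a v + s • v} with hYdef
  have hposC : ∀ v ∈ C, ∀ i, 0 < v i := fun v hv => hpos v (hCD hv).1
  have hYne : Y.Nonempty := ⟨_, v₀, hv₀, δ / 2, by positivity, by linarith, rfl⟩
  have hB : ∀ p ∈ Y, ∀ W ∈ 𝓝 p, ∃ q ∈ Y, q ∈ W ∧ ∀ i, q i < p i := by
    rintro p ⟨v, hv, s, hs0, hs1, rfl⟩ W hW
    have h1 : Tendsto (fun η : ℝ => a v + (s - η) • v) (𝓝 0) (𝓝 (a v + s • v)) := by
      have : Continuous (fun η : ℝ => a v + (s - η) • v) := by fun_prop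
      simpa using this.tendsto 0
    have h2 : ∀ᶠ η : ℝ in 𝓝 0, 0 < s - η := by
      apply ContinuousAt.eventually_lt continuousAt_const (by fun_prop)
      simpa using hs0
    obtain ⟨η, ⟨h3, h4⟩, hη⟩ := ((((h1.eventually_mem hW).and h2).filter_mono
      nhdsWithin_le_nhds).and (self_mem_nhdsWithin (s := Set.Ioi (0 : ℝ)))).exists
    have hη' : (0 : ℝ) < η := hη
    refine ⟨a v + (s - η) • v, ⟨v, hv, s - η, h4, by linarith, rfl⟩, h3, ?_⟩
    intro i
    simp only [Pi.add_apply, Pi.smul_apply, smul_eq_mul]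
    have := mul_pos hη' (hposC v hv i)
    nlinarith
  have hA : ∀ p ∈ Y, ∀ k l : Fin n, k ≠ l → ∀ W ∈ 𝓝 p,
      ∃ q ∈ Y, ∃ q' ∈ Y, q ∈ W ∧ q' ∈ W ∧ q k < q' k ∧ q' l < q l := by
    rintro p ⟨v, hv, s, hs0, hs1, rfl⟩ k l hkl W hW
    -- neighbourhoods
    have h1 : Tendsto (fun z : ((Fin n → ℝ) × (Fin n → ℝ)) × ℝ => z.1.2 + z.2 • z.1.1)
        (𝓝 ((v, a v), s)) (𝓝 (a v + s • v)) := by
      have : Continuous (fun z : ((Fin n → ℝ) × (Fin n → ℝ)) × ℝ => z.1.2 + z.2 • z.1.1) := by
        fun_prop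
      simpa using this.tendsto ((v, a v), s)
    have h2 := h1.eventually_mem hW
    rw [nhds_prod_eq] at h2
    obtain ⟨N, hN, T, hT, hNT⟩ := Filter.eventually_prod_iff.mp h2
    obtain ⟨ε₀, hε₀, hT'⟩ := Metric.eventually_nhds_iff.mp hT
    obtain ⟨ε, hε, hεε₀, hεs, hεδ⟩ : ∃ ε : ℝ, 0 < ε ∧ ε ≤ ε₀ ∧ ε ≤ s ∧ ε ≤ δ - s :=
      ⟨min ε₀ (min s (δ - s)), lt_min hε₀ (lt_min hs0 (by linarith)), min_le_left _ _,
        (min_le_right _ _).trans (min_le_left _ _), (min_le_right _ _).trans (min_le_right _ _)⟩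
    have hvk := hposC v hv k
    have h3 : ∀ᶠ z : (Fin n → ℝ) × (Fin n → ℝ) in 𝓝 (v, a v),
        |z.2 k + s * z.1 k - (a v k + s * v k)| < ε * v k := by
      apply ContinuousAt.eventually_lt (by fun_prop) continuousAt_const
      simp only [sub_self, abs_zero]
      exact mul_pos hε hvk
    have h4 : ∀ᶠ z : (Fin n → ℝ) × (Fin n → ℝ) in 𝓝 (v, a v),
        |z.2 k + (s + ε / 2) * z.1 k - (a v k + s * v k)| < ε * v k := by
      apply ContinuousAt.eventually_lt (by fun_prop) continuousAt_const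
      have : a v k + (s + ε / 2) * v k - (a v k + s * v k) = ε / 2 * v k := by ring
      simp only [this]
      rw [abs_of_pos (by positivity)]
      have := mul_pos hε hvk
      linarith
    obtain ⟨w, hw, hwv, hw1, hw2, hw3⟩ := hC v hv _ (hN.and (h3.and h4))
    obtain ⟨s₁, s₂, e1, e2, e3⟩ := cross hvk (hposC w hw k)
      (hgen v (hCD hv).1 w (hCD hw).1 (Ne.symm hwv) k l hkl) hε hw2 hw3 (half_pos hε)
      (half_lt_self hε)
    have hmem : ∀ x ∈ C, N (x, a x) → ∀ y : ℝ, |y - s| < ε →
        a x + y • x ∈ Y ∧ a x + y • x ∈ W := by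
      intro x hx hNx y hy
      rw [abs_lt] at hy
      refine ⟨⟨x, hx, y, by linarith, by linarith, rfl⟩, hNT hNx (hT' ?_)⟩
      rw [Real.dist_eq, abs_lt]
      constructor <;> linarith
    have hNv : N (v, a v) := hN.self_of_nhds
    obtain ⟨m1, m2⟩ := hmem v hv hNv s₁ e1
    obtain ⟨m3, m4⟩ := hmem w hw hw1 s₂ e2
    rcases e3 with ⟨e4, e5⟩ | ⟨e4, e5⟩
    · exact ⟨_, m1, _, m3, m2, m4, e4, e5⟩
    · exact ⟨_, m3, _, m1, m4, m2, e4, e5⟩
  obtain ⟨p, hpY, hp⟩ := exists_shattered hYne hA hB Finset.univ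
  have hn : 0 < n := by
    rcases Nat.eq_zero_or_pos n with rfl | h
    · exact absurd (Set.to_countable D) hD
    · exact h
  have hne : (Finset.univ : Finset (Fin n)).Nonempty := ⟨⟨0, hn⟩, Finset.mem_univ _⟩
  choose V hV s hs0 hs1 hps using fun i => hpY i (Finset.mem_univ i)
  set x : Fin n → (Fin n → ℝ) → (Fin n → ℝ) := fun i q =>
    a (V i) + (s i + (q i - p i i) / V i i) • V i with hx
  have hxc : ∀ i, Continuous (x i) := by
    intro i
    simp only [hx]
    fun_prop
  have hxp : ∀ i, x i (fun i => p i i) = p i := by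
    intro i
    simp only [hx, sub_self, zero_div, add_zero]
    exact (hps i).symm
  refine ⟨fun i => p i i, mem_interior_iff_mem_nhds.mpr ?_⟩
  have ev1 : ∀ᶠ q : Fin n → ℝ in 𝓝 (fun i => p i i), ∀ i,
      0 < s i + (q i - p i i) / V i i ∧ s i + (q i - p i i) / V i i < δ := by
    rw [Filter.eventually_all]
    intro i
    have hc : Continuous (fun q : Fin n → ℝ => s i + (q i - p i i) / V i i) :=
      continuous_const.add (((continuous_apply i).sub continuous_const).div_const _)
    apply Filter.Eventually.and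
    · apply ContinuousAt.eventually_lt continuousAt_const hc.continuousAt
      simpa using hs0 i
    · apply ContinuousAt.eventually_lt hc.continuousAt continuousAt_const
      simpa using hs1 i
  have ev2 : ∀ᶠ q : Fin n → ℝ in 𝓝 (fun i => p i i), ∀ i j, j ≠ i → x i q i < x j q i := by
    rw [Filter.eventually_all]
    intro i
    rw [Filter.eventually_all]
    intro j
    by_cases hji : j = i
    · exact Filter.Eventually.of_forall (fun q h => absurd hji h)
    · have : ∀ᶠ q : Fin n → ℝ in 𝓝 (fun i => p i i), x i q i < x j q i := by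
        apply ContinuousAt.eventually_lt
        · exact ((continuous_apply i).comp (hxc i)).continuousAt
        · exact ((continuous_apply i).comp (hxc j)).continuousAt
        · rw [hxp, hxp]; exact hp i (Finset.mem_univ i) j (Finset.mem_univ j) hji
      filter_upwards [this] with q hq _ using hq
  filter_upwards [ev1, ev2] with q h1 h2
  have hmem := finite_min hK Finset.univ hne (fun i => x i q)
    (fun i _ => ha (V i) (hCD (hV i)) _ (h1 i).1.le (h1 i).2.le)
  have hxq : ∀ i, x i q i = q i := by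
    intro i
    have h3 : a (V i) i + s i * V i i = p i i := by
      have := congrFun (hps i) i
      simp only [Pi.add_apply, Pi.smul_apply, smul_eq_mul] at this
      exact this.symm
    have h4 := hposC (V i) (hV i) i
    simp only [hx, Pi.add_apply, Pi.smul_apply, smul_eq_mul]
    rw [add_mul, div_mul_cancel₀ _ h4.ne']
    linarith
  convert hmem using 1
  funext j
  apply le_antisymm
  · apply Finset.le_inf'
    intro i _
    by_cases hij : i = j
    · subst hij; exact (hxq i).ge
    · rw [← hxq j]; exact (h2 j i hij).le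
  · have h5 := Finset.inf'_le (fun i => x i q j) (Finset.mem_univ j)
    rw [hxq j] at h5
    exact h5

end Q123.KK
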